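import Mathlib
import Pool.Agent.X30.WS4

/-!
# `k + 1` randomly shifted `k`-th powers: the asymptotic formula for almost all integers
-/

set_option autoImplicit false

namespace Pool.Agent.Results.MP_45c923_nt.AlmostAllAsymptotic

open MeasureTheory ProbabilityTheory

/-- the number of values of the random shift with index `m`: it is at most `m ^ η`, for `m ≥ 1`, `η ≥ 0` -/
noncomputable def size (η : ℝ) (m : ℕ) : ℕ := 2 ^ ⌊η * Nat.log 2 m⌋₊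

/-- the left end of the interval of length `2 ^ ⌊h log₂ n⌋` containing `n` (`log₂` rounded down) -/
noncomputable def base (h : ℝ) (n : ℕ) : ℕ :=
  2 ^ ⌊h * Nat.log 2 n⌋₊ * (n / 2 ^ ⌊h * Nat.log 2 n⌋₊)

/-- the number of ordered representations of `N` as a sum of exactly `t` of the numbers `x ^ k + w x`, `x ≥ 1` -/
noncomputable def R (k t : ℕ) (w : ℕ → ℕ) (N : ℕ) : ℕ :=
  {x : Fin t → ℕ | (∀ i, 1 ≤ x i) ∧ ∑ i, (x i ^ k + w (x i)) = N}.ncard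

theorem result (k q s : ℕ) (hq1 : 1 ≤ q) (hq : q + 2 ≤ k) (hs : 2 ^ q < 2 * s) (η h : ℝ)
    (hη : ((k : ℝ) - η) * (2 * s + q * 2 ^ q) < 2 * s * (q + 1)) (hη1 : η ≤ k - 1)
    (hh0 : 0 ≤ h) (hh : (k : ℝ) < s * (1 - h))
    {Ω : Type*} [MeasurableSpace Ω] (μ : Measure Ω) [IsProbabilityMeasure μ]
    (δ : ℕ → Ω → ℕ) (hm : ∀ m, Measurable (δ m)) (hind : iIndepFun δ μ)
    (hu : ∀ m, ∀ d < size η m, μ {ω | δ m ω = d} = 1 / (size η m : ENNReal)) :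
    (∃ κ : ℝ, 0 < κ ∧ ∀ᵐ ω ∂μ, ∀ ε : ℝ, 0 < ε → ∃ C : ℝ, ∀ X : ℕ, 1 ≤ X →
      ({N : ℕ | N ≤ X ∧ ε < |(R k s (fun n => δ (base h n) ω) N : ℝ) / (N : ℝ) ^ ((s : ℝ) / k - 1) -
        Real.Gamma (1 + 1 / k) ^ s / Real.Gamma (s / k)|}.ncard : ℝ) ≤ C * (X : ℝ) ^ (1 - κ)) ∧
    (∃ X0 : ℕ, ∀ ω, ∀ X : ℕ, X0 ≤ X → (X : ℝ) / (8 * k ^ 2 * 2 ^ k) ≤
      ({N : ℕ | N ≤ X ∧ ∀ t ≤ k, R k t (fun n => δ (base h n) ω) N = 0}.ncard : ℝ)) := by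
  constructor
  · obtain ⟨κ, hκ, _, h1⟩ := Pool.Agent.X30.WS.aa_asymp k q s hq1 hq (by exact_mod_cast hs) η h hη hη1
      hh0 hh δ hm hind hu
    refine ⟨κ, hκ, ?_⟩
    filter_upwards [h1] with ω hω ε hε
    obtain ⟨C, hC, h2⟩ := hω ε hε
    refine ⟨_, Pool.Agent.X30.WP.ncard_le_of κ C hC (fun N =>
      ε < |(R k s (fun n => δ (base h n) ω) N : ℝ) / (N : ℝ) ^ ((s : ℝ) / k - 1) -
        Real.Gamma (1 + 1 / k) ^ s / Real.Gamma (s / k)|) ?_⟩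
    intro X B hB
    refine h2 X B fun N hN => ⟨(hB N hN).1, fun hcon => ?_⟩
    exact absurd hcon.2 (not_le.2 (hB N hN).2)
  · obtain ⟨X0, h1⟩ := Pool.Agent.X30.WP.missing_ncard k (by omega)
    refine ⟨X0, fun ω X hX => (h1 (fun n => δ (base h n) ω) X hX).trans ?_⟩
    have hsub : ({N | N ≤ X ∧ ∀ t ≤ k, ¬ Pool.Agent.X30.WP.SumOf k t (fun n => δ (base h n) ω) N} : Set ℕ) ⊆
        {N : ℕ | N ≤ X ∧ ∀ t ≤ k, R k t (fun n => δ (base h n) ω) N = 0} := by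
      rintro N ⟨hN1, hN2⟩
      refine ⟨hN1, fun t ht => ?_⟩
      have h3 : {x : Fin t → ℕ | (∀ i, 1 ≤ x i) ∧ ∑ i, (x i ^ k + (fun n => δ (base h n) ω) (x i)) = N} = ∅ := by
        rw [Set.eq_empty_iff_forall_notMem]
        rintro x ⟨hx1, hx2⟩
        exact hN2 t ht ⟨x, hx1, hx2.symm⟩
      unfold R
      rw [h3, Set.ncard_empty]
    have hfin : ({N : ℕ | N ≤ X ∧ ∀ t ≤ k, R k t (fun n => δ (base h n) ω) N = 0} : Set ℕ).Finite :=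
      (Set.finite_Iic X).subset fun N hN => hN.1
    exact_mod_cast Set.ncard_le_ncard hsub hfin

end Pool.Agent.Results.MP_45c923_nt.AlmostAllAsymptotic
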