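import Mathlib
import Pool.Agent.X30.PS1
import Pool.Agent.X30.PQ4

/-!
# Exact `k`-th powers and few random elements of the gaps between them
-/

set_option autoImplicit false

namespace Pool.Agent.Results.MP_45c923_nt.FewPseudoPowers

open MeasureTheory ProbabilityTheory

/-- the length of the gap `[n ^ k, (n + 1) ^ k)` -/
def gap (k n : ℕ) : ℕ := (n + 1) ^ k - n ^ k

/-- `N` is a sum of exactly `s` powers `z ^ k` and exactly `t` numbers `x ^ k + w x`, `z, x ≥ 1` -/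
def IsMixed (k s t : ℕ) (w : ℕ → ℕ) (N : ℕ) : Prop :=
  ∃ z : Fin s → ℕ, ∃ x : Fin t → ℕ, (∀ i, 1 ≤ z i) ∧ (∀ i, 1 ≤ x i) ∧
    N = ∑ i, (z i) ^ k + ∑ i, (x i ^ k + w (x i))

theorem result (k : ℕ) (hk : 2 ≤ k)
    {Ω : Type*} [MeasurableSpace Ω] (μ : Measure Ω) [IsProbabilityMeasure μ]
    (δ : ℕ → Ω → ℕ) (hm : ∀ n, Measurable (δ n)) (hind : iIndepFun δ μ)
    (hu : ∀ n, ∀ d < gap k n, μ {ω | δ n ω = d} = 1 / (gap k n : ENNReal)) :
    (∀ᵐ ω ∂μ, ∀ s t : ℕ, ((k : ℝ) * (1 - 1 / (k : ℝ)) ^ s < t ∨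
        (0 < t ∧ (k : ℝ) * Real.log (k / t) < s)) →
      ∃ N0 : ℕ, ∀ N : ℕ, N0 ≤ N → IsMixed k s t (fun n => δ n ω) N) ∧
    (∀ ω, ∀ s : ℕ, ∀ N0 : ℕ, ∃ N : ℕ, N0 ≤ N ∧ ∀ t : ℕ, s + t ≤ k →
      ¬ IsMixed k s t (fun n => δ n ω) N) := by
  have hk0 : (0 : ℝ) < k := by exact_mod_cast (by omega : 0 < k)
  constructor
  · rw [ae_all_iff]
    intro s
    rw [ae_all_iff]
    intro t
    by_cases hs : (k : ℝ) * (1 - 1 / (k : ℝ)) ^ s < t
    · filter_upwards [Pool.Agent.X30.PQ.mostly_exact k s t hk hs δ hm hind hu] with ω hω _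
      exact hω
    · refine Filter.Eventually.of_forall fun ω h => absurd ?_ hs
      rcases h with h | ⟨ht, h⟩
      · exact h
      · have ht0 : (0 : ℝ) < t := by exact_mod_cast ht
        have h1 := Pool.Agent.X30.PP.pow_le_exp k s (by omega)
        have h2 : Real.exp (-((s : ℝ) / k)) < t / k := by
          rw [← Real.lt_log_iff_exp_lt (by positivity)]
          have h3 : Real.log ((k : ℝ) / t) < (s : ℝ) / k := by
            rw [lt_div_iff₀ hk0]
            linarith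
          have h4 : Real.log ((t : ℝ) / k) = - Real.log ((k : ℝ) / t) := by
            rw [← Real.log_inv, inv_div]
          rw [h4]
          linarith
        calc (k : ℝ) * (1 - 1 / (k : ℝ)) ^ s < k * (t / k) := by
              gcongr
              exact h1.trans_lt h2
          _ = t := by field_simp
  · intro ω s N0
    obtain ⟨N, h1, h2⟩ := Pool.Agent.X30.PS.not_mixed k hk (fun n => δ n ω) s N0
    refine ⟨N, h1, fun t ht => ?_⟩
    rintro ⟨z, x, hz, hx, hN⟩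
    exact h2 t ht z x hz hx hN

end Pool.Agent.Results.MP_45c923_nt.FewPseudoPowers
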