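import Pool.Agent.X100.WS.Final

/-! Waring's problem for almost all real shifts: `k + 2 + ⌊log₂ k⌋` variables suffice. -/

namespace Pool.Agent.Results.MP_45c923_nt.GenericShifts

open Filter MeasureTheory

/-- Every large real number `τ` is within `τ^(-κ)` of a sum of the `k`-th powers of the
shifted integers `x i + θ i`, with all `x i` as large as we please. -/
def Represents (k : ℕ) {s : ℕ} (θ : Fin s → ℝ) (κ : ℝ) : Prop :=
  ∀ M : ℕ, ∀ᶠ τ : ℝ in atTop, ∃ x : Fin s → ℕ, (∀ i, M ≤ x i) ∧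
    |∑ i, ((x i : ℝ) + θ i) ^ k - τ| ≤ τ ^ (-κ)

theorem result (k s : ℕ) (hk : 2 ≤ k) (hs : k + 2 + Nat.log 2 k ≤ s) :
    ∀ᵐ θ : Fin s → ℝ, ∀ κ : ℝ,
      κ < (2 ^ (s - k - 1) - k) / (k * (2 ^ (s - k - 1) + 1)) → Represents k θ κ := by
  obtain ⟨n, rfl⟩ : ∃ n, k = n + 2 := ⟨k - 2, by omega⟩
  obtain ⟨m, rfl⟩ : ∃ m, s = n + 3 + m := ⟨s - (n + 3), by omega⟩
  have e : n + 3 + m - (n + 2) - 1 = m := by omega
  rw [e]
  have hm : n + 2 < 2 ^ m := by
    have h1 := Nat.lt_pow_succ_log_self (b := 2) (by norm_num) (n + 2)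
    exact h1.trans_le (Nat.pow_le_pow_right (by norm_num) (by omega))
  have h := Pool.Agent.X100.WS.main (ι := Fin (n + 3 + m)) n m (by simp)
    (by exact_mod_cast hm)
  filter_upwards [h] with θ hθ κ hκ
  exact hθ κ (by push_cast at hκ; exact hκ)

end Pool.Agent.Results.MP_45c923_nt.GenericShifts
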