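import Pool.Agent.X114.WR.Main

/-!
MP_45c923_nt, Q1 (is `G(k) = O(k)`?): sums of `O(k)` `k`-th powers in arithmetic progressions.

If `G(k) ≤ C k`, then every class modulo every large `q` contains a sum of `C k` `k`-th powers which
is at most `q ^ (1 + ε)`. We prove this, with `C` depending only on `ε`, for all the classes modulo
almost all the moduli without small prime factors (in particular modulo almost all the primes), the
exceptional set having a power saving.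
-/

set_option autoImplicit false

namespace Pool.Agent.Results.MP_45c923_nt.SumsInProgressions

open Filter Topology

/-- `n` is a sum of `t` `k`-th powers of positive integers. -/
def IsSum (k t n : ℕ) : Prop := ∃ x : Fin t → ℕ, (∀ i, 0 < x i) ∧ ∑ i, x i ^ k = n

/-- Every residue class modulo `q` contains a sum of `t` `k`-th powers of positive integers which is at
most `q ^ c`. -/
def Good (k t : ℕ) (c : ℝ) (q : ℕ) : Prop :=
  ∀ n : ℕ, ∃ m : ℕ, m ≡ n [MOD q] ∧ (m : ℝ) ≤ (q : ℝ) ^ c ∧ IsSum k t m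

/-- For every `δ > 0` there is `σ > 0` such that for all large `Q` at most `Q ^ (1 - σ)` of the
integers `q` with `Q < q ≤ 2 Q`, all of whose prime factors exceed `Q ^ δ`, are not `Good`. -/
def AlmostAllModuli (k t : ℕ) (c : ℝ) : Prop :=
  ∀ δ : ℝ, 0 < δ → ∃ σ : ℝ, 0 < σ ∧ ∀ᶠ Q : ℕ in atTop,
    (({q : ℕ | Q < q ∧ q ≤ 2 * Q ∧ (∀ p : ℕ, p.Prime → p ∣ q → (Q : ℝ) ^ δ < p) ∧
      ¬ Good k t c q}).ncard : ℝ) ≤ (Q : ℝ) ^ (1 - σ)

theorem general {k : ℕ} (hk : 2 ≤ k) (s : ℕ) {c : ℝ} (hc : 1 < c * (1 - (1 - 1 / (k : ℝ)) ^ s)) :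
    AlmostAllModuli k (2 * s + 1) c := by
  intro δ hδ
  obtain ⟨σ, hσ, H⟩ := Pool.Agent.X114.WR.main k s hk c δ hδ hc
  refine ⟨σ, hσ, ?_⟩
  filter_upwards [H] with Q hQ
  set A : Set ℕ := {q : ℕ | Q < q ∧ q ≤ 2 * Q ∧ (∀ p : ℕ, p.Prime → p ∣ q → (Q : ℝ) ^ δ < p) ∧
      ¬ Good k (2 * s + 1) c q} with hA
  have hfin : A.Finite := (Set.finite_Ioc Q (2 * Q)).subset fun q hq => ⟨hq.1, hq.2.1⟩
  rw [Set.ncard_eq_toFinset_card A hfin]
  exact hQ _ fun q hq => (Set.Finite.mem_toFinset hfin).mp hq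

theorem pow_le_exp {k : ℕ} (hk : 2 ≤ k) (m : ℕ) : (1 - 1 / (k : ℝ)) ^ (k * m) ≤ Real.exp (-m) := by
  have hk0 : (0 : ℝ) < k := by exact_mod_cast (by omega : 0 < k)
  have hk2 : (2 : ℝ) ≤ k := by exact_mod_cast hk
  have h0 : (0 : ℝ) ≤ 1 - 1 / (k : ℝ) := by rw [sub_nonneg, div_le_one hk0]; linarith
  have h1 : 1 - 1 / (k : ℝ) ≤ Real.exp (-(1 / k)) := by
    have := Real.add_one_le_exp (-(1 / (k : ℝ)))
    linarith
  calc (1 - 1 / (k : ℝ)) ^ (k * m) ≤ Real.exp (-(1 / k)) ^ (k * m) := pow_le_pow_left₀ h0 h1 _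
    _ = Real.exp (-m) := by
        rw [← Real.exp_nat_mul]
        congr 1
        push_cast
        field_simp

theorem pow_two_le {k : ℕ} (hk : 2 ≤ k) : (1 - 1 / (k : ℝ)) ^ (2 * k - 1) ≤ Real.exp (-2) := by
  have hk0 : (0 : ℝ) < k := by exact_mod_cast (by omega : 0 < k)
  have hk2 : (2 : ℝ) ≤ k := by exact_mod_cast hk
  have hd : (0 : ℝ) < 2 * k - 1 := by linarith
  set x : ℝ := 1 / (2 * k - 1) with hx
  have hx0 : 0 < x := by positivity
  have hx1 : x < 1 := by rw [hx, div_lt_one hd]; linarith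
  have h1 := Real.hasSum_log_sub_log_of_abs_lt_one (x := x) (by rwa [abs_of_pos hx0])
  have h2 : 2 * x ≤ Real.log (1 + x) - Real.log (1 - x) := by
    have h3 := le_hasSum h1 0 (fun j _ => by positivity)
    simpa using h3
  have h3 : Real.log (1 - 1 / (k : ℝ)) = -(Real.log (1 + x) - Real.log (1 - x)) := by
    rw [← Real.log_div (by linarith) (by linarith), ← Real.log_inv]
    congr 1
    have e1 : 1 + x = 2 * k / (2 * k - 1) := by rw [hx]; field_simp; ring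
    have e2 : 1 - x = 2 * (k - 1) / (2 * k - 1) := by rw [hx]; field_simp; ring
    have hk1 : (k : ℝ) - 1 ≠ 0 := by linarith
    rw [e1, e2, div_div_div_cancel_right₀ hd.ne', inv_div]
    field_simp
  have h4 : (0 : ℝ) < 1 - 1 / (k : ℝ) := by rw [sub_pos, div_lt_one hk0]; linarith
  rw [← Real.exp_log h4, ← Real.exp_nat_mul, Real.exp_le_exp, h3]
  have h5 : (((2 * k - 1 : ℕ)) : ℝ) = 2 * k - 1 := by
    rw [Nat.cast_sub (by omega)]; push_cast; ring
  rw [h5]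
  have h6 : (2 * (k : ℝ) - 1) * (2 * x) = 2 := by rw [hx]; field_simp
  nlinarith

theorem result :
    -- (1) `2 s + 1` powers, every exponent `c > 1 / (1 - (1 - 1 / k) ^ s)`
    (∀ k : ℕ, 2 ≤ k → ∀ (s : ℕ) (c : ℝ), 1 < c * (1 - (1 - 1 / (k : ℝ)) ^ s) →
      AlmostAllModuli k (2 * s + 1) c) ∧
    -- (2) `O(k)` powers, exponent `1 + ε`
    (∀ ε : ℝ, 0 < ε → ∃ C : ℕ, ∀ k : ℕ, 2 ≤ k → ∃ t : ℕ, t ≤ C * k ∧ AlmostAllModuli k t (1 + ε)) ∧
    -- (3) `2 k + 1`, `4 k - 1` and at most `100 k` powers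
    (∀ k : ℕ, 2 ≤ k → AlmostAllModuli k (2 * k + 1) 1.59 ∧ AlmostAllModuli k (4 * k - 1) 1.16 ∧
      AlmostAllModuli k (98 * k + 1) (1 + 10⁻¹ ^ 21)) := by
  refine ⟨fun k hk s c hc => general hk s hc, fun ε hε => ?_, fun k hk => ⟨?_, ?_, ?_⟩⟩
  · obtain ⟨m, hm⟩ := exists_nat_gt (Real.log ((1 + ε) / ε))
    refine ⟨2 * m + 1, fun k hk => ⟨2 * (k * m) + 1, by nlinarith, general hk _ ?_⟩⟩
    have h1 := pow_le_exp hk m
    have h2 : Real.exp (-m) < ε / (1 + ε) := by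
      rw [← Real.lt_log_iff_exp_lt (by positivity)]
      have h3 : Real.log (ε / (1 + ε)) = -Real.log ((1 + ε) / ε) := by
        rw [← Real.log_inv, inv_div]
      rw [h3]; linarith
    have h3 : (1 - 1 / (k : ℝ)) ^ (k * m) < ε / (1 + ε) := lt_of_le_of_lt h1 h2
    have h4 : (1 + ε) * (1 - 1 / (k : ℝ)) ^ (k * m) < ε := by
      rw [lt_div_iff₀ (by positivity)] at h3; linarith
    linarith
  · apply general hk k
    have h1 := pow_le_exp hk 1
    rw [mul_one] at h1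
    have h2 : Real.exp (-((1 : ℕ) : ℝ)) < 0.37 := by
      rw [Real.exp_neg, Nat.cast_one, inv_lt_comm₀ (Real.exp_pos 1) (by norm_num)]
      refine lt_trans ?_ Real.exp_one_gt_d9
      norm_num
    have h3 : (1 - 1 / (k : ℝ)) ^ k < 0.37 := lt_of_le_of_lt h1 h2
    norm_num at h3 ⊢
    linarith
  · have h0 : 4 * k - 1 = 2 * (2 * k - 1) + 1 := by omega
    rw [h0]
    apply general hk (2 * k - 1)
    have h1 := pow_two_le hk
    have h2 : Real.exp (-2) < 0.1354 := by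
      rw [Real.exp_neg, inv_lt_comm₀ (Real.exp_pos 2) (by norm_num),
        show (2 : ℝ) = 1 + 1 by norm_num, Real.exp_add]
      have := Real.exp_one_gt_d9
      have h3 : (2.7182818283 : ℝ) * 2.7182818283 < Real.exp 1 * Real.exp 1 :=
        mul_lt_mul'' this this (by norm_num) (by norm_num)
      refine lt_trans ?_ h3
      norm_num
    have h3 : (1 - 1 / (k : ℝ)) ^ (2 * k - 1) < 0.1354 := lt_of_le_of_lt h1 h2
    norm_num at h3 ⊢
    linarith
  · have h0 : 98 * k + 1 = 2 * (k * 49) + 1 := by ring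
    rw [h0]
    apply general hk (k * 49)
    have h1 := pow_le_exp hk 49
    have h2 : Real.exp (-((49 : ℕ) : ℝ)) < 1 / (15 * 10 ^ 20) := by
      rw [Real.exp_neg, inv_lt_comm₀ (Real.exp_pos _) (by norm_num)]
      have h3 : Real.exp ((49 : ℕ) : ℝ) = Real.exp 1 ^ 49 := by
        rw [← Real.exp_nat_mul, mul_one]
      rw [h3]
      have h4 : (2.7182818283 : ℝ) ^ 49 < Real.exp 1 ^ 49 :=
        pow_lt_pow_left₀ Real.exp_one_gt_d9 (by norm_num) (by norm_num)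
      refine lt_trans ?_ h4
      norm_num
    have h3 : (1 - 1 / (k : ℝ)) ^ (k * 49) < 1 / (15 * 10 ^ 20) := lt_of_le_of_lt h1 h2
    have h4 : (0 : ℝ) < (1 + 10⁻¹ ^ 21) := by positivity
    have h5 : (1 + (10 : ℝ)⁻¹ ^ 21) * (1 - 1 / (k : ℝ)) ^ (k * 49) <
        (1 + (10 : ℝ)⁻¹ ^ 21) * (1 / (15 * 10 ^ 20)) := mul_lt_mul_of_pos_left h3 h4
    have h6 : (1 + (10 : ℝ)⁻¹ ^ 21) * (1 / (15 * 10 ^ 20)) < (10 : ℝ)⁻¹ ^ 21 := by norm_num
    linarith

end Pool.Agent.Results.MP_45c923_nt.SumsInProgressions
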